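import Pool.Agent.H608.Pw.Mv
import Pool.Agent.H608.Ge.PiE
import Pool.Agent.H608.Ge.Omit
import Pool.Agent.H607.Pw.Equid
import Mathlib

/-!
# The powers of `π` and `e` with very few omitted terms are equidistributed modulo one

Leibniz's series is `π = ∑ (4 / (4 k + 1) - 4 / (4 k + 3))`, `k ≥ 0`, and `e` is the limit of
`b_k = (1 + 1 / k) ^ k`, so that `e = 2 ∏ b_(k + 1) / b_k`. For a set `E` of positive integers let `π_E` be the
series without the terms with `k ∈ E` and let `e_E` be the product without the factors with `k ∈ E`.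
There are sets `E` with at most `C log log log K` elements up to `K` such that `(π_E ^ n)` and `(e_E ^ n)` are
equidistributed modulo one, and even completely equidistributed: for all `k` and all `ξ ≠ 0` in a given countable set the
points `(ξ x ^ n, ξ x ^ (n + 1), …, ξ x ^ (n + k - 1))` are equidistributed modulo one in `ℝ ^ k`, `x = π_E` or `e_E`. The same
holds for all numbers `x = f (π_E, e_E) > 1`, `f` in a given countable set of non-constant analytic functions.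

The proof. At a stage a place `m` of a dyadic interval `(H, 2 H]` is added to `E`. The numbers `x` depend on `m` by
`x_m = c + ∑ b_i / m ^ (s + 1 + i)`. The function `Q (x_m) x_m ^ n` of `m`, `Q` a polynomial, has an expansion of the same kind with
bounds that are uniform in `n`, so that Vinogradov's method bounds the sums of `e (Q (x_m) (x_m ^ n - x_m ^ n'))` over `m` for all `n > n'`
with `(s + 1 + δ) log H < n' log c`, `n < (log H) ^ (1 + γ)`. By the second moment, for most `m` the Weyl sums of `Q (x_m) x_m ^ n` over all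
intervals of this range are small. So one place per stage suffices, and `log H` may grow from one stage to the next
like `(log H) ^ (1 + γ / 2)`.
-/

set_option autoImplicit false

namespace Pool.Agent.Results.MP_9056e9_nt.FewOmittedTerms

open Finset Filter Topology Metric
open Pool.Agent.H608.Ge (up2 ue hasSum_ue hasSum_up2 hasSum_up2_zero serPE linInd_PE tendsto_omit rp RealN rp_mem mem_ball_n)
open Pool.Agent.H608.Pw (Nrm PowEq nrm_ne_zero linOneP)

/-- The sequence `s 0, s 1, …` of points of `ℝ ^ k` is equidistributed modulo one: every box has the right frequency. -/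
def Equidistributed {k : ℕ} (s : ℕ → Fin k → ℝ) : Prop :=
  ∀ u v : Fin k → ℝ, (∀ i, 0 ≤ u i ∧ u i ≤ v i ∧ v i ≤ 1) →
    Tendsto (fun N : ℕ => ({n : ℕ | n < N ∧ ∀ i, u i ≤ Int.fract (s n i) ∧
      Int.fract (s n i) < v i}.ncard : ℝ) / N) atTop (𝓝 (∏ i, (v i - u i)))

/-- `A` has at least `H / (log H) ^ (1 / 4)` elements in `[H, 2 H)`, for all large `H` -/
def NotTooSparse (A : Set ℕ) : Prop :=
  ∀ᶠ H : ℕ in atTop, H * (Real.log H) ^ (-(1 / 4) : ℝ) ≤ (({k : ℕ | k ∈ A ∧ H ≤ k ∧ k < 2 * H}.ncard : ℕ) : ℝ)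

open Classical in
/-- Leibniz's series for `π` without the pairs of terms with numbers in `E` -/
noncomputable def piE (E : Set ℕ) : ℝ :=
  ∑' k : ℕ, if k ∈ E then 0 else 4 / (4 * (k : ℝ) + 1) - 4 / (4 * (k : ℝ) + 3)

/-- the sequence with limit `e` -/
noncomputable def bern (k : ℕ) : ℝ := (1 + 1 / (k : ℝ)) ^ k

open Classical in
/-- the product for `e` without the factors in `E` -/
noncomputable def eE (E : Set ℕ) : ℝ := 2 * ∏' n : ℕ, if n + 1 ∈ E then 1 else bern (n + 2) / bern (n + 1)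

lemma piE_empty : piE ∅ = Real.pi := by
  unfold piE
  rw [← hasSum_up2_zero.tsum_eq]
  apply tsum_congr
  intro k
  rw [if_neg (Set.notMem_empty _)]
  rfl

open Classical in
lemma piE_eq {E : Set ℕ} (h0 : 0 ∉ E) : piE E = 8 / 3 + ∑' n : ℕ, if n + 1 ∈ E then 0 else up2 (n + 1) := by
  have h1 : Summable fun k : ℕ => if k ∈ E then 0 else 4 / (4 * (k : ℝ) + 1) - 4 / (4 * (k : ℝ) + 3) := by
    refine (hasSum_up2_zero.summable.indicator {k | k ∉ E}).congr fun k => ?_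
    simp only [Set.indicator, Set.mem_ofPred_eq]
    split_ifs <;> rfl
  unfold piE
  rw [h1.tsum_eq_zero_add, if_neg h0]
  congr 1
  · norm_num

lemma bern_pos (k : ℕ) : 0 < bern k := by
  unfold bern
  positivity

lemma log_bern (n : ℕ) : Real.log (bern (n + 2) / bern (n + 1)) = ue (n + 1) := by
  rw [Real.log_div (bern_pos _).ne' (bern_pos _).ne']
  unfold bern ue
  rw [Real.log_pow, Real.log_pow]
  push_cast
  have e1 : (n : ℝ) + 1 + 1 = n + 2 := by ring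
  rw [e1]

open Classical in
lemma eE_eq (E : Set ℕ) : eE E = Real.exp (Real.log 2 + ∑' n : ℕ, if n + 1 ∈ E then 0 else ue (n + 1)) := by
  have h1 : Summable fun n : ℕ => if n + 1 ∈ E then 0 else ue (n + 1) := by
    refine (hasSum_ue.summable.indicator {n | n + 1 ∉ E}).congr fun n => ?_
    simp only [Set.indicator, Set.mem_ofPred_eq]
    split_ifs <;> rfl
  have h2 : ∀ n : ℕ, Real.log (if n + 1 ∈ E then 1 else bern (n + 2) / bern (n + 1)) =
      if n + 1 ∈ E then 0 else ue (n + 1) := by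
    intro n
    split_ifs
    · exact Real.log_one
    · exact log_bern n
  unfold eE
  rw [← Real.rexp_tsum_eq_tprod (f := fun n : ℕ => if n + 1 ∈ E then 1 else bern (n + 2) / bern (n + 1))]
  · simp only [h2]
    rw [Real.exp_add, Real.exp_log (by norm_num)]
  · intro n
    split_ifs
    · exact one_pos
    · exact div_pos (bern_pos _) (bern_pos _)
  · simp only [h2]
    exact h1

lemma eE_empty : eE ∅ = Real.exp 1 := by
  rw [eE_eq]
  simp only [Set.mem_empty_iff_false, if_false]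
  rw [hasSum_ue.tsum_eq]
  congr 1
  ring

/-- the map from the coordinates of the process to `(π_E, e_E)` -/
noncomputable def φ (z : Fin 2 → ℂ) : ℂ × ℂ := (((8 / 3 : ℝ) : ℂ) + z 0, Complex.exp ((Real.log 2 : ℝ) + z 1))

lemma φ_analytic (s : Set (Fin 2 → ℂ)) : AnalyticOnNhd ℂ φ s := by
  have h0 : ∀ i : Fin 2, AnalyticOnNhd ℂ (fun z : Fin 2 → ℂ => z i) s := fun i =>
    (ContinuousLinearMap.proj (R := ℂ) (φ := fun _ : Fin 2 => ℂ) i).analyticOnNhd _
  exact (analyticOnNhd_const.add (h0 0)).prod (analyticOnNhd_const.add (h0 1)).cexp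

lemma φ_real (a : Fin 2 → ℝ) : φ (rp a) = (((8 / 3 + a 0 : ℝ) : ℂ), ((Real.exp (Real.log 2 + a 1) : ℝ) : ℂ)) := by
  unfold φ rp
  push_cast
  rfl

/-- the polynomial with the coefficients `g` -/
noncomputable def pc (i : Σ k : ℕ, (Fin k → ℤ)) : Polynomial ℂ := ∑ j, Polynomial.C ((i.2 j : ℤ) : ℂ) * Polynomial.X ^ (j : ℕ)

/-- the real polynomial with the coefficients `ξ g` -/
noncomputable def pr (ξ : ℝ) (i : Σ k : ℕ, (Fin k → ℤ)) : Polynomial ℝ :=
  Polynomial.C ξ * ∑ j, Polynomial.C ((i.2 j : ℤ) : ℝ) * Polynomial.X ^ (j : ℕ)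

lemma pc_eval (i : Σ k : ℕ, (Fin k → ℤ)) (x : ℂ) : (pc i).eval x = ∑ j, ((i.2 j : ℤ) : ℂ) * x ^ (j : ℕ) := by
  unfold pc
  rw [Polynomial.eval_finsetSum]
  refine sum_congr rfl fun j _ => ?_
  simp

lemma pr_eval (ξ : ℝ) (i : Σ k : ℕ, (Fin k → ℤ)) (x : ℝ) :
    (pr ξ i).eval x = ξ * ∑ j, ((i.2 j : ℤ) : ℝ) * x ^ (j : ℕ) := by
  unfold pr
  rw [Polynomial.eval_mul, Polynomial.eval_C, Polynomial.eval_finsetSum]
  congr 1
  refine sum_congr rfl fun j _ => ?_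
  simp

lemma pc_real (i : Σ k : ℕ, (Fin k → ℤ)) (x : ℝ) : (pc i).eval (x : ℂ) = ((∑ j, ((i.2 j : ℤ) : ℝ) * x ^ (j : ℕ) : ℝ) : ℂ) := by
  rw [pc_eval]
  push_cast
  rfl

lemma pc_coeff (i : Σ k : ℕ, (Fin k → ℤ)) (j : Fin i.1) : (pc i).coeff j = ((i.2 j : ℤ) : ℂ) := by
  unfold pc
  rw [Polynomial.finsetSum_coeff, sum_eq_single j]
  · rw [Polynomial.coeff_C_mul_X_pow, if_pos rfl]
  · intro l _ hl
    rw [Polynomial.coeff_C_mul_X_pow, if_neg]
    intro h
    exact hl (Fin.ext h.symm)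
  · intro h
    exact absurd (mem_univ _) h

/-- a polynomial with a coefficient of positive degree is not constant on the values of a function that is not constant -/
lemma germ_poly {i : Σ k : ℕ, (Fin k → ℤ)} {j : Fin i.1} (hj : (j : ℕ) ≠ 0) (hg : i.2 j ≠ 0) {f : ℂ × ℂ → ℂ} {p : ℂ × ℂ}
    (hf : ContinuousAt f p) {c : ℂ} (h : ∀ᶠ w in 𝓝 p, (pc i).eval (f w) = c) : ∃ c', ∀ᶠ w in 𝓝 p, f w = c' := by
  refine ⟨f p, ?_⟩
  have hne : pc i - Polynomial.C c ≠ 0 := by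
    intro h0
    have h1 := congrArg (fun P : Polynomial ℂ => P.coeff j) h0
    simp only [Polynomial.coeff_sub, Polynomial.coeff_zero] at h1
    rw [pc_coeff, Polynomial.coeff_C, if_neg hj, sub_zero] at h1
    exact hg (by exact_mod_cast h1)
  have hfin : ((pc i - Polynomial.C c).rootSet ℂ \ {f p}).Finite := (Polynomial.rootSet_finite _ _).sdiff
  have h2 : ∀ᶠ w in 𝓝 p, f w ∈ ((pc i - Polynomial.C c).rootSet ℂ \ {f p})ᶜ :=
    hf.eventually_mem (hfin.isClosed.isOpen_compl.mem_nhds fun h => h.2 rfl)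
  filter_upwards [h, h2] with w h3 h4
  by_contra h5
  apply h4
  refine ⟨?_, h5⟩
  rw [Polynomial.mem_rootSet]
  refine ⟨hne, ?_⟩
  rw [Polynomial.coe_aeval_eq_eval, Polynomial.eval_sub, Polynomial.eval_C, h3, sub_self]

/-- a function which is constant in the coordinates of the process is constant -/
lemma germ_φ {f : ℂ × ℂ → ℂ} {r : ℝ} (hr : 0 < r) {c : ℂ}
    (h : ∀ w ∈ ball (rp ![Real.pi - 8 / 3, 1 - Real.log 2]) r, f (φ w) = c) :
    ∀ᶠ w in 𝓝 (((Real.pi : ℝ) : ℂ), ((Real.exp 1 : ℝ) : ℂ)), f w = c := by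
  obtain ⟨ψ, hψ⟩ : ∃ ψ : ℂ × ℂ → Fin 2 → ℂ, ψ = fun w => ![w.1 - ((8 / 3 : ℝ) : ℂ), Complex.log w.2 - (Real.log 2 : ℝ)] :=
    ⟨_, rfl⟩
  have hslit : ((Real.exp 1 : ℝ) : ℂ) ∈ Complex.slitPlane := by
    rw [Complex.ofReal_mem_slitPlane]
    exact Real.exp_pos 1
  have hc : ContinuousAt ψ (((Real.pi : ℝ) : ℂ), ((Real.exp 1 : ℝ) : ℂ)) := by
    rw [hψ]
    rw [continuousAt_pi]
    intro i
    fin_cases i
    · exact (continuousAt_fst.sub continuousAt_const)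
    · have h1 : ContinuousAt (fun w : ℂ × ℂ => Complex.log w.2) (((Real.pi : ℝ) : ℂ), ((Real.exp 1 : ℝ) : ℂ)) :=
        ContinuousAt.comp (f := Prod.snd) (g := Complex.log) (continuousAt_clog hslit) continuousAt_snd
      exact h1.sub continuousAt_const
  have hp : ψ (((Real.pi : ℝ) : ℂ), ((Real.exp 1 : ℝ) : ℂ)) = rp ![Real.pi - 8 / 3, 1 - Real.log 2] := by
    rw [hψ]
    funext i
    unfold rp
    fin_cases i
    · show ((Real.pi : ℝ) : ℂ) - ((8 / 3 : ℝ) : ℂ) = ((Real.pi - 8 / 3 : ℝ) : ℂ)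
      push_cast
      rfl
    · show Complex.log ((Real.exp 1 : ℝ) : ℂ) - (Real.log 2 : ℝ) = ((1 - Real.log 2 : ℝ) : ℂ)
      rw [← Complex.ofReal_log (Real.exp_pos 1).le, Real.log_exp]
      push_cast
      rfl
  have h1 : ∀ᶠ w in 𝓝 (((Real.pi : ℝ) : ℂ), ((Real.exp 1 : ℝ) : ℂ)), ψ w ∈ ball (rp ![Real.pi - 8 / 3, 1 - Real.log 2]) r := by
    apply hc.eventually_mem
    rw [hp]
    exact ball_mem_nhds _ hr
  have h2 : ∀ᶠ w : ℂ × ℂ in 𝓝 (((Real.pi : ℝ) : ℂ), ((Real.exp 1 : ℝ) : ℂ)), w.2 ≠ 0 := by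
    apply continuousAt_snd.eventually_ne
    exact Complex.slitPlane_ne_zero hslit
  filter_upwards [h1, h2] with w h3 h4
  have h5 := h _ h3
  have h6 : φ (ψ w) = w := by
    rw [hψ]
    unfold φ
    apply Prod.ext
    · show ((8 / 3 : ℝ) : ℂ) + (w.1 - ((8 / 3 : ℝ) : ℂ)) = w.1
      ring
    · show Complex.exp ((Real.log 2 : ℝ) + (Complex.log w.2 - (Real.log 2 : ℝ))) = w.2
      rw [show ((Real.log 2 : ℝ) : ℂ) + (Complex.log w.2 - (Real.log 2 : ℝ)) = Complex.log w.2 by ring, Complex.exp_log h4]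
  rwa [h6] at h5

lemma germ_fst {p : ℂ × ℂ} : ¬ ∃ c, ∀ᶠ w : ℂ × ℂ in 𝓝 p, w.1 = c := by
  rintro ⟨c, h⟩
  have h1 : Tendsto (fun t : ℝ => (p.1 + (t : ℂ), p.2)) (𝓝[≠] 0) (𝓝 p) := by
    have h2 : Continuous fun t : ℝ => (p.1 + (t : ℂ), p.2) := by fun_prop
    have h3 := h2.tendsto 0
    simp only [Complex.ofReal_zero, add_zero] at h3
    exact h3.mono_left nhdsWithin_le_nhds
  obtain ⟨t, ht1, ht2⟩ := ((h1.eventually h).and self_mem_nhdsWithin).exists
  have h4 : p.1 = c := h.self_of_nhds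
  rw [← h4] at ht1
  simp at ht1
  exact ht2 ht1

lemma germ_snd {p : ℂ × ℂ} : ¬ ∃ c, ∀ᶠ w : ℂ × ℂ in 𝓝 p, w.2 = c := by
  rintro ⟨c, h⟩
  have h1 : Tendsto (fun t : ℝ => (p.1, p.2 + (t : ℂ))) (𝓝[≠] 0) (𝓝 p) := by
    have h2 : Continuous fun t : ℝ => (p.1, p.2 + (t : ℂ)) := by fun_prop
    have h3 := h2.tendsto 0
    simp only [Complex.ofReal_zero, add_zero] at h3
    exact h3.mono_left nhdsWithin_le_nhds
  obtain ⟨t, ht1, ht2⟩ := ((h1.eventually h).and self_mem_nhdsWithin).exists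
  have h4 : p.2 = c := h.self_of_nhds
  rw [← h4] at ht1
  simp at ht1
  exact ht2 ht1

/-- from Weyl sums to frequencies -/
lemma equi_of_pow {x ξ : ℝ} {k : ℕ} (h : ∀ g : Fin k → ℤ, g ≠ 0 → PowEq (pr ξ ⟨k, g⟩) x) :
    Equidistributed fun n (j : Fin k) => ξ * x ^ (n + (j : ℕ)) := by
  apply Pool.Agent.H607.Pw.equid_of_weyl
  intro g hg
  have h1 := h g hg
  unfold PowEq at h1
  rw [tendsto_zero_iff_norm_tendsto_zero]
  refine h1.congr fun N => ?_
  rw [norm_div, Complex.norm_natCast]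
  congr 2
  unfold Pool.Agent.H607.Mix.SS Pool.Agent.H608.Pw.e Pool.Agent.W206.ND.ee
  refine sum_congr rfl fun n _ => ?_
  have h2 : (pr ξ ⟨k, g⟩).eval x * x ^ n = ∑ i, (g i : ℝ) * (ξ * x ^ (n + (i : ℕ))) := by
    rw [pr_eval, mul_sum, sum_mul]
    refine sum_congr rfl fun i _ => ?_
    rw [pow_add]
    ring
  rw [h2]
  congr 1
  push_cast
  ring

open Classical in
theorem result :
    -- without omitted terms the numbers are `π` and `e`
    piE ∅ = Real.pi ∧ eE ∅ = Real.exp 1 ∧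
    ∃ C : ℝ, 0 < C ∧ ∀ A : Set ℕ, NotTooSparse A → ∀ (M : ℕ) (r : ℝ), 0 < r → ∀ K : Set ℝ, K.Countable →
      ∀ 𝓕 : Set (ℂ × ℂ → ℂ), 𝓕.Countable →
        (∀ f ∈ 𝓕, AnalyticOnNhd ℂ f (ball (((Real.pi : ℝ) : ℂ), ((Real.exp 1 : ℝ) : ℂ)) r)) →
        (∀ f ∈ 𝓕, ∀ a b : ℝ, |a - Real.pi| < r → |b - Real.exp 1| < r → (f ((a : ℂ), (b : ℂ))).im = 0) →
      ∃ E : Set ℕ, E ⊆ A ∧ (∀ m ∈ E, 1 ≤ m ∧ M ≤ m) ∧
        (∀ K : ℕ, 16 ≤ K → (({m : ℕ | m ∈ E ∧ m ≤ K}.ncard : ℕ) : ℝ) ≤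
          C * Real.log (Real.log (Real.log K))) ∧
        |piE E - Real.pi| < r ∧ |eE E - Real.exp 1| < r ∧
        -- the powers of `π_E` and of `e_E`
        (∀ ξ ∈ K, ξ ≠ 0 → ∀ k : ℕ, Equidistributed (fun n (j : Fin k) => ξ * piE E ^ (n + (j : ℕ))) ∧
          Equidistributed (fun n (j : Fin k) => ξ * eE E ^ (n + (j : ℕ)))) ∧
        -- the powers of all numbers `f (π_E, e_E) > 1`
        ∀ f ∈ 𝓕, (¬ ∃ c, ∀ᶠ w in 𝓝 (((Real.pi : ℝ) : ℂ), ((Real.exp 1 : ℝ) : ℂ)), f w = c) →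
          1 < (f ((piE E : ℂ), (eE E : ℂ))).re → ∀ ξ ∈ K, ξ ≠ 0 → ∀ k : ℕ,
            Equidistributed fun n (j : Fin k) => ξ * (f ((piE E : ℂ), (eE E : ℂ))).re ^ (n + (j : ℕ)) := by
  refine ⟨piE_empty, eE_empty, ?_⟩
  obtain ⟨C, hC, hmain⟩ := linOneP
  refine ⟨C, hC, fun A hA M r₀ hr₀ K hK 𝓕₀ h𝓕₀ hFA₀ hFR₀ => ?_⟩
  -- a smaller radius
  obtain ⟨r, hrd⟩ : ∃ r, r = min r₀ 1 := ⟨_, rfl⟩
  have hr : 0 < r := by rw [hrd]; exact lt_min hr₀ one_pos
  have hrr₀ : r ≤ r₀ := by rw [hrd]; exact min_le_left _ _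
  have hr1 : r ≤ 1 := by rw [hrd]; exact min_le_right _ _
  obtain ⟨ρ, hρ, hρr⟩ := Metric.continuousAt_iff.1 (Complex.continuous_exp.continuousAt (x := (1 : ℂ))) r hr
  obtain ⟨r', hr'⟩ : ∃ r', r' = min r ρ := ⟨_, rfl⟩
  have hr0 : 0 < r' := by rw [hr']; exact lt_min hr hρ
  have hr'r : r' ≤ r := by rw [hr']; exact min_le_left _ _
  have hr'ρ : r' ≤ ρ := by rw [hr']; exact min_le_right _ _
  -- add the coordinates
  obtain ⟨𝓕, h𝓕⟩ : ∃ 𝓕 : Set (ℂ × ℂ → ℂ), 𝓕 = 𝓕₀ ∪ {Prod.fst, Prod.snd} := ⟨_, rfl⟩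
  have hFc : 𝓕.Countable := by
    rw [h𝓕]
    exact h𝓕₀.union ((Set.finite_singleton _).insert _).countable
  have hFA : ∀ f ∈ 𝓕, AnalyticOnNhd ℂ f (ball (((Real.pi : ℝ) : ℂ), ((Real.exp 1 : ℝ) : ℂ)) r) := by
    intro f hf
    rw [h𝓕] at hf
    rcases hf with hf | hf | hf
    · exact (hFA₀ f hf).mono (ball_subset_ball hrr₀)
    · rw [hf]; exact analyticOnNhd_fst
    · rw [hf]; exact analyticOnNhd_snd
  have hFR : ∀ f ∈ 𝓕, ∀ a b : ℝ, |a - Real.pi| < r → |b - Real.exp 1| < r → (f ((a : ℂ), (b : ℂ))).im = 0 := by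
    intro f hf a b ha hb
    rw [h𝓕] at hf
    rcases hf with hf | hf | hf
    · exact hFR₀ f hf a b (ha.trans_le hrr₀) (hb.trans_le hrr₀)
    · rw [hf]; exact Complex.ofReal_im a
    · rw [hf]; exact Complex.ofReal_im b
  -- the ball
  have hball : ∀ w ∈ ball (rp ![Real.pi - 8 / 3, 1 - Real.log 2]) r',
      φ w ∈ ball (((Real.pi : ℝ) : ℂ), ((Real.exp 1 : ℝ) : ℂ)) r := by
    intro w hw
    rw [mem_ball_n hr0] at hw
    have h0 := hw 0
    have h1 := hw 1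
    rw [mem_ball, dist_eq_norm] at h0 h1
    rw [mem_ball, Prod.dist_eq, max_lt_iff, dist_eq_norm]
    constructor
    · have e1 : (φ w).1 - ((Real.pi : ℝ) : ℂ) = w 0 - rp ![Real.pi - 8 / 3, 1 - Real.log 2] 0 := by
        show ((8 / 3 : ℝ) : ℂ) + w 0 - ((Real.pi : ℝ) : ℂ) = w 0 - ((Real.pi - 8 / 3 : ℝ) : ℂ)
        push_cast
        ring
      simp only
      rw [e1]
      exact h0.trans_le hr'r
    · have e1 : dist ((Real.log 2 : ℝ) + w 1) (1 : ℂ) < ρ := by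
        rw [dist_eq_norm]
        have e2 : ((Real.log 2 : ℝ) : ℂ) + w 1 - 1 = w 1 - rp ![Real.pi - 8 / 3, 1 - Real.log 2] 1 := by
          show ((Real.log 2 : ℝ) : ℂ) + w 1 - 1 = w 1 - ((1 - Real.log 2 : ℝ) : ℂ)
          push_cast
          ring
        rw [e2]
        exact h1.trans_le hr'ρ
      have e3 := hρr e1
      have e4 : Complex.exp 1 = ((Real.exp 1 : ℝ) : ℂ) := by push_cast; rfl
      rw [e4] at e3
      exact e3
  -- the polynomials
  have hQc : (insert (0 : Polynomial ℝ) (Set.image2 pr K Set.univ)).Countable :=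
    (hK.image2 (Set.countable_univ) pr).insert _
  obtain ⟨Q, hQ⟩ := hQc.exists_eq_range (Set.insert_nonempty _ _)
  have hQmem : ∀ ξ ∈ K, ∀ i, ∃ q, Q q = pr ξ i := by
    intro ξ hξ i
    have h1 : pr ξ i ∈ insert (0 : Polynomial ℝ) (Set.image2 pr K Set.univ) :=
      Or.inr ⟨ξ, hξ, i, Set.mem_univ _, rfl⟩
    rw [hQ] at h1
    exact h1
  -- the functions
  obtain ⟨𝓖, h𝓖⟩ : ∃ 𝓖 : Set ((Fin 2 → ℂ) → ℂ), 𝓖 = Set.image2 (fun (f : ℂ × ℂ → ℂ) (i : Σ k : ℕ, (Fin k → ℤ)) w =>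
      (pc i).eval (f (φ w))) 𝓕 Set.univ := ⟨_, rfl⟩
  have hGc : 𝓖.Countable := by
    rw [h𝓖]
    exact hFc.image2 Set.countable_univ _
  have hx0 : (fun j => (serPE j).x) = ![Real.pi - 8 / 3, 1 - Real.log 2] := by
    funext j
    fin_cases j <;> rfl
  have hRc : Countable (Int.castRingHom ℝ).range := (Set.countable_range (Int.castRingHom ℝ)).to_subtype
  obtain ⟨E, z, _, hEA, hEK, hl, hz, _, hnrm⟩ := hmain Q 2 serPE (by norm_num) linInd_PE r' hr0 A hA M 𝓖 hGc (by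
      rw [hx0, h𝓖]
      rintro _ ⟨f, hf, i, _, rfl⟩
      have h1 : AnalyticOnNhd ℂ (fun w => f (φ w)) (ball (rp ![Real.pi - 8 / 3, 1 - Real.log 2]) r') :=
        (hFA f hf).comp (φ_analytic _) hball
      have h2 : AnalyticOnNhd ℂ (fun x : ℂ => (pc i).eval x) Set.univ :=
        (Polynomial.differentiable (pc i)).differentiableOn.analyticOnNhd isOpen_univ
      exact h2.comp h1 fun _ _ => Set.mem_univ _) (by
      rw [hx0, h𝓖]
      rintro _ ⟨f, hf, i, _, rfl⟩ a ha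
      have h1 := hball _ (rp_mem hr0 ha)
      simp only
      rw [φ_real] at h1 ⊢
      rw [mem_ball, Prod.dist_eq, max_lt_iff] at h1
      have h2 := hFR f hf (8 / 3 + a 0) (Real.exp (Real.log 2 + a 1)) (by
        have h3 := h1.1
        simp only at h3
        rwa [dist_eq_norm, ← Complex.ofReal_sub, Complex.norm_real, Real.norm_eq_abs] at h3) (by
        have h3 := h1.2
        simp only at h3
        rwa [dist_eq_norm, ← Complex.ofReal_sub, Complex.norm_real, Real.norm_eq_abs] at h3)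
      have h4 : f (((8 / 3 + a 0 : ℝ) : ℂ), ((Real.exp (Real.log 2 + a 1) : ℝ) : ℂ)) =
          (((f (((8 / 3 + a 0 : ℝ) : ℂ), ((Real.exp (Real.log 2 + a 1) : ℝ) : ℂ))).re : ℝ) : ℂ) :=
        Complex.ext (Complex.ofReal_re _).symm (by rw [h2, Complex.ofReal_im])
      rw [h4, pc_real, Complex.ofReal_im]) (Int.castRingHom ℝ).range hRc
  rw [hx0] at hnrm
  have h0E : 0 ∉ E := fun h => by
    have := (hEA 0 h).2.2
    omega
  have e0 : z 0 = ∑' n : ℕ, if n + 1 ∈ E then 0 else up2 (n + 1) :=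
    tendsto_nhds_unique (hl 0) (tendsto_omit hasSum_up2 h0E)
  have e1 : z 1 = ∑' n : ℕ, if n + 1 ∈ E then 0 else ue (n + 1) :=
    tendsto_nhds_unique (hl 1) (tendsto_omit hasSum_ue h0E)
  have e2 : piE E = 8 / 3 + z 0 := by rw [piE_eq h0E, e0]
  have e3 : eE E = Real.exp (Real.log 2 + z 1) := by rw [eE_eq, e1]
  have hφ : φ (rp z) = (((piE E : ℝ) : ℂ), ((eE E : ℝ) : ℂ)) := by rw [φ_real, ← e2, ← e3]
  have hzb : rp z ∈ ball (rp ![Real.pi - 8 / 3, 1 - Real.log 2]) r' := by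
    apply rp_mem hr0
    intro j
    have h1 := hz j
    have h2 : (serPE j).x = (![Real.pi - 8 / 3, 1 - Real.log 2] : Fin 2 → ℝ) j := congrFun hx0 j
    rwa [h2] at h1
  have hpb := hball _ hzb
  rw [hφ, mem_ball, Prod.dist_eq, max_lt_iff] at hpb
  have hpi : |piE E - Real.pi| < r := by
    have h3 := hpb.1
    simp only at h3
    rwa [dist_eq_norm, ← Complex.ofReal_sub, Complex.norm_real, Real.norm_eq_abs] at h3
  have hee : |eE E - Real.exp 1| < r := by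
    have h3 := hpb.2
    simp only at h3
    rwa [dist_eq_norm, ← Complex.ofReal_sub, Complex.norm_real, Real.norm_eq_abs] at h3
  -- the general assertion
  have key : ∀ f ∈ 𝓕, (¬ ∃ c, ∀ᶠ w in 𝓝 (((Real.pi : ℝ) : ℂ), ((Real.exp 1 : ℝ) : ℂ)), f w = c) →
      1 < (f ((piE E : ℂ), (eE E : ℂ))).re → ∀ ξ ∈ K, ξ ≠ 0 → ∀ k : ℕ,
        Equidistributed fun n (j : Fin k) => ξ * (f ((piE E : ℂ), (eE E : ℂ))).re ^ (n + (j : ℕ)) := by
    intro f hf hnc h1 ξ hξ hξ0 k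
    obtain ⟨α, hα⟩ : ∃ α, α = (f ((piE E : ℂ), (eE E : ℂ))).re := ⟨_, rfl⟩
    rw [← hα] at h1 ⊢
    have hfα : f ((piE E : ℂ), (eE E : ℂ)) = (α : ℂ) :=
      Complex.ext (by rw [hα, Complex.ofReal_re]) (by rw [hFR f hf _ _ hpi hee, Complex.ofReal_im])
    have hfc : ContinuousAt f (((Real.pi : ℝ) : ℂ), ((Real.exp 1 : ℝ) : ℂ)) := (hFA f hf _ (mem_ball_self hr)).continuousAt
    have hN : ∀ (i : Σ k : ℕ, (Fin k → ℤ)) (j : Fin i.1), (j : ℕ) ≠ 0 → i.2 j ≠ 0 →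
        Nrm Q (∑ j, ((i.2 j : ℤ) : ℝ) * α ^ (j : ℕ)) := by
      intro i j hj hg
      have h2 := hnrm (fun w => (pc i).eval (f (φ w))) (by
        rw [h𝓖]
        exact ⟨f, hf, i, Set.mem_univ _, rfl⟩) (by
        rintro ⟨c, hc⟩
        have h3 := germ_φ (f := fun w => (pc i).eval (f w)) hr0 hc
        exact hnc (germ_poly hj hg hfc h3))
      rw [hφ, hfα, pc_real, Complex.ofReal_re] at h2
      exact h2
    have hNα : Nrm Q α := by
      have h2 := hN ⟨2, ![0, 1]⟩ 1 (by norm_num) (by simp)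
      have h3 : ∑ j : Fin 2, (((![0, 1] : Fin 2 → ℤ) j : ℤ) : ℝ) * α ^ (j : ℕ) = α := by
        rw [Fin.sum_univ_two]
        simp
      simp only at h2
      rwa [h3] at h2
    apply equi_of_pow
    intro g hg
    obtain ⟨q, hq⟩ := hQmem ξ hξ ⟨k, g⟩
    have h2 := hNα.2 h1 q
    rw [hq] at h2
    apply h2
    rw [pr_eval]
    apply mul_ne_zero hξ0
    by_cases hj : ∃ j : Fin k, (j : ℕ) ≠ 0 ∧ g j ≠ 0
    · obtain ⟨j, hj1, hj2⟩ := hj
      exact nrm_ne_zero (hN ⟨k, g⟩ j hj1 hj2)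
    · push Not at hj
      obtain ⟨j₀, hj₀⟩ : ∃ j, g j ≠ 0 := by
        by_contra hcon
        push Not at hcon
        exact hg (funext hcon)
      have hj0 : (j₀ : ℕ) = 0 := by
        by_contra h3
        exact hj₀ (hj j₀ h3)
      have h3 : ∑ j : Fin k, ((g j : ℤ) : ℝ) * α ^ (j : ℕ) = g j₀ := by
        rw [sum_eq_single j₀]
        · rw [hj0, pow_zero, mul_one]
        · intro l _ hl
          have h4 : (l : ℕ) ≠ 0 := by
            intro h5
            exact hl (Fin.ext (by rw [h5, hj0]))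
          rw [hj l h4, Int.cast_zero, zero_mul]
        · intro h4
          exact absurd (mem_univ _) h4
      show ∑ j : Fin k, ((g j : ℤ) : ℝ) * α ^ (j : ℕ) ≠ 0
      rw [h3]
      exact_mod_cast hj₀
  refine ⟨E, fun k hk => (hEA k hk).1, fun k hk => ⟨(hEA k hk).2.2, (hEA k hk).2.1⟩, hEK, hpi.trans_le hrr₀,
    hee.trans_le hrr₀, fun ξ hξ hξ0 k => ⟨?_, ?_⟩, fun f hf hnc h1 => key f (by rw [h𝓕]; exact Or.inl hf) hnc h1⟩
  · have h1 := key Prod.fst (by rw [h𝓕]; exact Or.inr (Or.inl rfl)) germ_fst (by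
      show 1 < ((piE E : ℝ) : ℂ).re
      rw [Complex.ofReal_re]
      have h2 := Real.pi_gt_three
      rw [abs_lt] at hpi
      linarith [hpi.1]) ξ hξ hξ0 k
    simp only [Complex.ofReal_re] at h1
    exact h1
  · have h1 := key Prod.snd (by rw [h𝓕]; exact Or.inr (Or.inr rfl)) germ_snd (by
      show 1 < ((eE E : ℝ) : ℂ).re
      rw [Complex.ofReal_re]
      have h2 := Real.exp_one_gt_d9
      rw [abs_lt] at hee
      linarith [hee.1]) ξ hξ hξ0 k
    simp only [Complex.ofReal_re] at h1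
    exact h1

end Pool.Agent.Results.MP_9056e9_nt.FewOmittedTerms
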