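import Pool.Agent.H607.Pw.Fam
import Pool.Graph.R_seed8.H340R2.LW
import Mathlib

/-!
# Very sparse binary numbers `y` for which `(y e ^ n)` and `(y π ^ n)` are equidistributed

For a set `A` of positive integers and an integer `b ≥ 2` let `y_b(A) = ∑_{a ∈ A} b^(-a)`, the number
whose base-`b` digits are `1` at the places `a ∈ A` and `0` at all other places.

There is one set `A` with at most `N (log log N)^3 / log N` elements up to `N` (for all large `N`), so of
density zero, with the following properties for ALL bases `b ≥ 2` and all rational numbers `r`, with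
`y = r + y_b(A)` (these `y` are dense in `ℝ`; for `y = 1` the following is stronger than the two questions of
the problem):

* the sequences `(y e ^ n)` and `(y π ^ n)` are equidistributed modulo one, and they are even jointly
  completely equidistributed: for every `k` the sequence of the points
  `(y e ^ n, y e ^ (n+1), …, y e ^ (n+k-1), y π ^ n, …, y π ^ (n+k-1))` is equidistributed in `ℝ ^ (2k)`
  modulo `ℤ ^ (2k)`.

More generally let `Λ`, `Γ` be any countable sets of real numbers and let `S` be any countable set of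
sequences of real numbers. Then `A` can be chosen such that moreover the following holds for all
bases `b ≥ 2`. Let `α_1, …, α_m` be different elements of `Λ` greater than one, none of which is a
rational power of `b` (for instance all integers `> 1` which are no rational powers of `b`, and `3 / 2`);
for each `i` let `x_{i1}, …, x_{ik}` be elements of `Γ` which are linearly independent over `ℚ`, and let
`c_{ij}` be sequences of `S`. Then the points `(x_{ij} α_i ^ n y_b(A) + c_{ij}(n))_{i,j}` are equidistributed.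

The proof: `A` is random, `i ∈ A` with probability `1 / w_i`, `w_i ≈ log i / (log log i)^2`. The correlations
are small if there are many digit changes, more than `C log n / log log n`, among the leading base-`b` digits of
`λ α ^ n`. It is shown that this holds for all `n` outside a set of density zero, for every `α > 1` which is no
rational power of `b` (nothing is known on the quality of the rational approximations to
`log π / log 2`). If there were no digit changes between the places `s` and `R s` for a positive proportion of the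
`n ≤ N`, then the rational numbers with denominator `b ^ s` which approximate the `λ α ^ n` would
satisfy exact multiplicative relations, which give a rational number `ρ` close to `α ^ q`, `q` bounded, with a
very high power `ρ ^ X` of small height up to a power of `b`. Hence `ρ` is a rational power of `b`.
-/

set_option autoImplicit false

namespace Pool.Agent.Results.MP_9056e9_nt.SparseMultiplier

open Finset Filter Topology MeasureTheory
open Pool.Agent.W206.ND (ee)
open Pool.Agent.H607 Pool.Agent.H607.Mix Pool.Agent.H607.Sp Pool.Agent.H607.Pw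

/-- The sequence `s 0, s 1, …` of points of `ℝ ^ ι` is equidistributed modulo one: every box has the
right frequency. -/
def Equidistributed {ι : Type} [Fintype ι] (s : ℕ → ι → ℝ) : Prop :=
  ∀ u v : ι → ℝ, (∀ i, 0 ≤ u i ∧ u i ≤ v i ∧ v i ≤ 1) →
    Tendsto (fun N : ℕ => ({n : ℕ | n < N ∧ ∀ i, u i ≤ Int.fract (s n i) ∧
      Int.fract (s n i) < v i}.ncard : ℝ) / N) atTop (𝓝 (∏ i, (v i - u i)))

/-- the number with the base-`b` digits `1` at the places in `A` and `0` at the other places -/
noncomputable def number (A : Set ℕ) (b : ℕ) : ℝ := ∑' a : A, 1 / (b : ℝ) ^ (a : ℕ)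

/-- the random set -/
def AA (w : ℕ → ℕ) (ω : ∀ i, Fin (w i)) : Set ℕ := {i | i ≠ 0 ∧ (ω i : ℕ) = 0}

lemma aa_sum (w : ℕ → ℕ) (ω : ∀ i, Fin (w i)) (b : ℕ) : number (AA w ω) b = YY w b ω := by
  classical
  unfold number
  rw [tsum_subtype (AA w ω) (fun a : ℕ => 1 / (b : ℝ) ^ a)]
  unfold YY
  congr 1
  funext i
  unfold bt rr
  by_cases h1 : i = 0
  · rw [Set.indicator_of_notMem (by intro h; exact h.1 h1), if_pos h1, mul_zero]
  · by_cases h2 : (ω i : ℕ) = 0
    · rw [Set.indicator_of_mem (show i ∈ AA w ω from ⟨h1, h2⟩), if_pos h2, if_neg h1, one_mul]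
    · rw [Set.indicator_of_notMem (by intro h; exact h2 h.2), if_neg h2, zero_mul]

lemma aa_card (w : ℕ → ℕ) (ω : ∀ i, Fin (w i)) (N : ℕ) :
    ((AA w ω ∩ Set.Icc 1 N).ncard : ℝ) ≤ Ct w (N + 1) ω := by
  classical
  have h1 : AA w ω ∩ Set.Icc 1 N =
      (((range (N + 1)).filter (fun i => i ≠ 0 ∧ (ω i : ℕ) = 0) : Finset ℕ) : Set ℕ) := by
    ext i
    simp only [AA, Set.mem_inter_iff, Set.mem_ofPred_eq, Set.mem_Icc, coe_filter, mem_range]
    constructor
    · rintro ⟨⟨h1, h2⟩, h3, h4⟩
      exact ⟨by omega, h1, h2⟩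
    · rintro ⟨h1, h2, h3⟩
      exact ⟨⟨h2, h3⟩, by omega, by omega⟩
  rw [h1, Set.ncard_coe_finset, card_filter]
  push_cast
  unfold Ct
  refine sum_le_sum fun i _ => ?_
  unfold bt
  split_ifs with h2 h3 h3
  · exact le_rfl
  · exact absurd h2.2 h3
  · norm_num
  · exact le_rfl

lemma aa_count [∀ i, NeZero (wg 1 2 i)] :
    ∀ᵐ ω ∂(unif (wg 1 2)), ∀ᶠ N : ℕ in atTop, ((AA (wg 1 2) ω ∩ Set.Icc 1 N).ncard : ℝ) ≤
      N * (Real.log (Real.log N)) ^ 3 / Real.log N := by
  have h := as_count (wg 1 2) (Ex_summable le_rfl (by norm_num))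
    (Eventually.of_forall fun j => Ex_pos le_rfl (by norm_num) _ Nat.one_le_two_pow)
  filter_upwards [h] with ω hω
  filter_upwards [(tendsto_add_atTop_nat 1).eventually hω, count_final 1 2 (by norm_num)] with N h1 h2
  have h3 := (aa_card _ ω N).trans (h1.trans h2)
  simpa using h3

theorem result (Λ Γ : Set ℝ) (S : Set (ℕ → ℝ)) (hΛ : Λ.Countable) (hΓ : Γ.Countable) (hS : S.Countable) :
    ∃ A : Set ℕ, 0 ∉ A ∧
      (∀ᶠ N : ℕ in atTop, ((A ∩ Set.Icc 1 N).ncard : ℝ) ≤
        N * (Real.log (Real.log N)) ^ 3 / Real.log N) ∧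
      ∀ b : ℕ, 2 ≤ b →
        (∀ (r : ℚ) (k : ℕ), Equidistributed (fun n (p : Fin 2 × Fin k) =>
          (r + number A b) * (![Real.exp 1, Real.pi] p.1) ^ (n + (p.2 : ℕ)))) ∧
        ∀ (m k : ℕ) (α : Fin m → ℝ) (x : Fin m → Fin k → ℝ) (c : Fin m → Fin k → ℕ → ℝ),
          Function.Injective α → (∀ i, α i ∈ Λ) → (∀ i, 1 < α i) →
          (∀ i, ∀ p : ℕ, 1 ≤ p → ∀ q : ℤ, α i ^ p ≠ (b : ℝ) ^ q) →
          (∀ i j, x i j ∈ Γ) → (∀ i, LinearIndependent ℚ (x i)) → (∀ i j, c i j ∈ S) →
          Equidistributed (fun n (p : Fin m × Fin k) =>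
            x p.1 p.2 * α p.1 ^ n * number A b + c p.1 p.2 n) := by
  classical
  haveI : ∀ i, NeZero (wg 1 2 i) := fun i => ⟨by have := wg_two 1 2 i; omega⟩
  -- the countable sets
  set Λ' : Set ℝ := Λ ∪ {Real.exp 1, Real.pi} with hΛ'
  set Γ' : Set ℝ := Γ ∪ (Set.range (fun j : ℕ => (Real.exp 1) ^ j) ∪ Set.range (fun j : ℕ => Real.pi ^ j))
    with hΓ'
  set S' : Set (ℕ → ℝ) := S ∪ (Set.range (fun p : ℚ × ℕ => fun n : ℕ => (p.1 : ℝ) * (Real.exp 1) ^ (n + p.2)) ∪
    Set.range (fun p : ℚ × ℕ => fun n : ℕ => (p.1 : ℝ) * Real.pi ^ (n + p.2))) with hS'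
  have hΛc : Λ'.Countable := hΛ.union (Set.to_countable _)
  have hΓc : Γ'.Countable := hΓ.union ((Set.countable_range _).union (Set.countable_range _))
  have hSc : S'.Countable := hS.union ((Set.countable_range _).union (Set.countable_range _))
  haveI := hΛc.to_subtype
  haveI := hΓc.to_subtype
  haveI := hSc.to_subtype
  have hae : ∀ᵐ ω ∂(unif (wg 1 2)), ∀ (b m k : ℕ) (α : Fin m → Λ') (x : Fin m → Fin k → Γ')
      (c : Fin m → Fin k → S') (g : Fin m × Fin k → ℤ),
      (2 ≤ b ∧ (∀ i, 1 < (α i : ℝ)) ∧ Function.Injective (fun i => (α i : ℝ)) ∧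
        (∀ i, ∀ p : ℕ, 1 ≤ p → ∀ q : ℤ, (α i : ℝ) ^ p ≠ (b : ℝ) ^ q) ∧
        (∀ i, LinearIndependent ℚ (fun j => (x i j : ℝ))) ∧ g ≠ 0) →
      Tendsto (fun N : ℕ => SS (fun n => ∑ p, (g p : ℝ) * ((x p.1 p.2 : ℝ) * (α p.1 : ℝ) ^ n *
        YY (wg 1 2) b ω + (c p.1 p.2 : ℕ → ℝ) n)) N / (N : ℂ)) atTop (𝓝 0) := by
    simp only [ae_all_iff]
    intro b m k α x c g
    rintro ⟨h1, h2, h3, h4, h5, h6⟩
    exact as_family h1 (fun i => (α i : ℝ)) h2 h3 h4 (fun i j => (x i j : ℝ)) h5
      (fun i j => (c i j : ℕ → ℝ)) g h6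
  obtain ⟨ω, hω1, hω2⟩ := (hae.and aa_count).exists
  refine ⟨AA (wg 1 2) ω, fun h => h.1 rfl, hω2, fun b hb => ?_⟩
  have hmain : ∀ (m k : ℕ) (α : Fin m → ℝ) (x : Fin m → Fin k → ℝ) (c : Fin m → Fin k → ℕ → ℝ),
      Function.Injective α → (∀ i, α i ∈ Λ') → (∀ i, 1 < α i) →
      (∀ i, ∀ p : ℕ, 1 ≤ p → ∀ q : ℤ, α i ^ p ≠ (b : ℝ) ^ q) →
      (∀ i j, x i j ∈ Γ') → (∀ i, LinearIndependent ℚ (x i)) → (∀ i j, c i j ∈ S') →
      Equidistributed (fun n (p : Fin m × Fin k) =>
        x p.1 p.2 * α p.1 ^ n * number (AA (wg 1 2) ω) b + c p.1 p.2 n) := by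
    intro m k α x c hinj hα hα1 hirr hx hlin hc
    rw [aa_sum]
    apply equid_of_weyl
    intro g hg
    exact hω1 b m k (fun i => ⟨α i, hα i⟩) (fun i j => ⟨x i j, hx i j⟩) (fun i j => ⟨c i j, hc i j⟩) g
      ⟨hb, hα1, hinj, hirr, hlin, hg⟩
  refine ⟨fun r k => ?_, fun m k α x c hinj hα hα1 hirr hx hlin hc => ?_⟩
  · have he := Pool.Agent.H340R2.LW.transcendental_exp_one
    have hpi := Pool.Agent.H340R2.LW.transcendental_pi
    have he1 : 1 < Real.exp 1 := by
      have := Real.add_one_lt_exp (show (1 : ℝ) ≠ 0 by norm_num)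
      linarith
    have hep : Real.exp 1 < Real.pi := by
      have h1 := Real.exp_one_lt_d9
      have h2 := Real.pi_gt_three
      linarith
    have h1 := hmain 2 k ![Real.exp 1, Real.pi] (fun i j => (![Real.exp 1, Real.pi] i) ^ (j : ℕ))
      (fun i j n => (r : ℝ) * (![Real.exp 1, Real.pi] i) ^ (n + (j : ℕ))) ?_ ?_ ?_ ?_ ?_ ?_ ?_
    · have e1 : (fun n (p : Fin 2 × Fin k) => (![Real.exp 1, Real.pi] p.1) ^ (p.2 : ℕ) *
          (![Real.exp 1, Real.pi] p.1) ^ n * number (AA (wg 1 2) ω) b +
          (r : ℝ) * (![Real.exp 1, Real.pi] p.1) ^ (n + (p.2 : ℕ))) =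
          (fun n (p : Fin 2 × Fin k) => (r + number (AA (wg 1 2) ω) b) *
          (![Real.exp 1, Real.pi] p.1) ^ (n + (p.2 : ℕ))) := by
        funext n p
        rw [pow_add]
        ring
      rw [e1] at h1
      exact h1
    · intro i j hij
      fin_cases i <;> fin_cases j
      · rfl
      · exfalso
        simp at hij
        linarith
      · exfalso
        simp at hij
        linarith
      · rfl
    · intro i
      right
      fin_cases i
      · left
        rfl
      · right
        rfl
    · intro i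
      fin_cases i
      · exact he1
      · show 1 < Real.pi
        linarith
    · intro i p hp q
      fin_cases i
      · exact ne_of_transcendental he b p hp q
      · exact ne_of_transcendental hpi b p hp q
    · intro i j
      right
      fin_cases i
      · left
        exact ⟨j, rfl⟩
      · right
        exact ⟨j, rfl⟩
    · intro i
      fin_cases i
      · exact indep_of_transcendental he k
      · exact indep_of_transcendental hpi k
    · intro i j
      right
      fin_cases i
      · left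
        exact ⟨(r, (j : ℕ)), rfl⟩
      · right
        exact ⟨(r, (j : ℕ)), rfl⟩
  · exact hmain m k α x c hinj (fun i => Or.inl (hα i)) hα1 hirr (fun i j => Or.inl (hx i j)) hlin
      (fun i j => Or.inl (hc i j))

end Pool.Agent.Results.MP_9056e9_nt.SparseMultiplier
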